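import Pool.Agent.Run7.h979.JR.Iface

/-!
# Piece LIM of project JR (helper979), by helper491: extension to all levels
-/

set_option autoImplicit false
set_option linter.all false

open Set Filter
open scoped Topology

namespace Run7.h491.JR

open Run7.h979.JR

theorem leg_phase {L : Lv} {v : Sq} {z w : ℤ} (h : Leg L (fun n => v (n - z)))
    (hzw : (z : ZMod L.len) = (w : ZMod L.len)) : Leg L (fun n => v (n - w)) := by
  rw [ZMod.intCast_eq_intCast_iff_dvd_sub] at hzw
  obtain ⟨c, hc⟩ := hzw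
  have h1 := h.shift (-c)
  have h2 : (fun n : ℤ => v (n - w)) = fun n : ℤ => v (n + -c * L.len - z) := by
    funext n
    congr 1
    linear_combination -hc
  rw [h2]
  exact h1

/-- legality at one level gives legality at the level below -/
theorem leg_down {y : Ph × Sq} (hy : y ∈ YS) {v : Sq} {m : ℕ}
    (h : ∀ z : ℤ, y.1 (m + 1) = (z : ZMod (ell (m + 1))) → Leg (Lk (m + 1)) (fun n => v (n - z))) :
    ∀ z : ℤ, y.1 m = (z : ZMod (ell m)) → Leg (Lk m) (fun n => v (n - z)) := by
  intro w hw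
  obtain ⟨⟨z, hz⟩, -⟩ := hy (m + 1)
  have h1 := h z (hz (m + 1) le_rfl)
  have h2 : Leg (Lk m) (fun n => v (n - z)) := Leg.down (L := Lk m) (M := MM m) h1
  have h3 : ((z : ℤ) : ZMod (ell m)) = (w : ZMod (ell m)) := by
    rw [← hw, hz m (Nat.le_succ m)]
  exact leg_phase h2 h3

theorem leg_le {y : Ph × Sq} (hy : y ∈ YS) {v : Sq} {j m : ℕ} (hjm : j ≤ m)
    (h : ∀ z : ℤ, y.1 m = (z : ZMod (ell m)) → Leg (Lk m) (fun n => v (n - z))) :
    ∀ z : ℤ, y.1 j = (z : ZMod (ell j)) → Leg (Lk j) (fun n => v (n - z)) := by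
  induction m, hjm using Nat.le_induction with
  | base => exact h
  | succ m hm ih => exact ih (leg_down hy h)

theorem t_LIM (hext : S_EXT) (hcnk : S_CNK) (hclo : S_CLO) : S_LIM := by
  intro y hy k v hv h0 hne
  let C : ℕ → Set Sq := fun m => {v' |
    (∀ z : ℤ, y.1 (k + m) = (z : ZMod (ell (k + m))) → Leg (Lk (k + m)) (fun n => v' (n - z))) ∧
    v' 0 = y.2 0 ∧ (∀ n : ℤ, n ≠ 0 → v' n ≠ y.2 n) ∧ ∀ n : ℤ, |n| ≤ ell k → v' n = v n}
  have hC : ∀ m v', v' ∈ C m ↔
    (∀ z : ℤ, y.1 (k + m) = (z : ZMod (ell (k + m))) → Leg (Lk (k + m)) (fun n => v' (n - z))) ∧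
    v' 0 = y.2 0 ∧ (∀ n : ℤ, n ≠ 0 → v' n ≠ y.2 n) ∧ ∀ n : ℤ, |n| ≤ ell k → v' n = v n :=
    fun m v' => Iff.rfl
  have hclosed : ∀ m, IsClosed (C m) := by
    intro m
    have h1 : IsClosed {v' : Sq | ∀ z : ℤ, y.1 (k + m) = (z : ZMod (ell (k + m))) →
        Leg (Lk (k + m)) (fun n => v' (n - z))} := by
      have : {v' : Sq | ∀ z : ℤ, y.1 (k + m) = (z : ZMod (ell (k + m))) →
        Leg (Lk (k + m)) (fun n => v' (n - z))} = ⋂ z : ℤ,
        ⋂ (_ : y.1 (k + m) = (z : ZMod (ell (k + m)))),
          {v' : Sq | Leg (Lk (k + m)) (fun n => v' (n - z))} := by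
        ext v'
        simp only [mem_setOf_eq, mem_iInter]
      rw [this]
      exact isClosed_iInter fun z => isClosed_iInter fun _ => hclo.1 _ z
    have h2 : IsClosed {v' : Sq | v' 0 = y.2 0} :=
      isClosed_eq (continuous_apply 0) continuous_const
    have h3 : IsClosed {v' : Sq | ∀ n : ℤ, n ≠ 0 → v' n ≠ y.2 n} := by
      have : {v' : Sq | ∀ n : ℤ, n ≠ 0 → v' n ≠ y.2 n} = ⋂ n : ℤ, ⋂ (_ : n ≠ 0),
          (fun v' : Sq => v' n) ⁻¹' {a | a ≠ y.2 n} := by
        ext v'
        simp only [mem_setOf_eq, mem_iInter, mem_preimage]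
      rw [this]
      exact isClosed_iInter fun n => isClosed_iInter fun _ =>
        (isClosed_discrete _).preimage (continuous_apply n)
    have h4 : IsClosed {v' : Sq | ∀ n : ℤ, |n| ≤ ell k → v' n = v n} := by
      have : {v' : Sq | ∀ n : ℤ, |n| ≤ ell k → v' n = v n} =
          ⋂ n : ℤ, ⋂ (_ : |n| ≤ (ell k : ℤ)), {v' : Sq | v' n = v n} := by
        ext v'
        simp only [mem_setOf_eq, mem_iInter]
      rw [this]
      exact isClosed_iInter fun n => isClosed_iInter fun _ =>
        isClosed_eq (continuous_apply n) continuous_const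
    exact h1.inter (h2.inter (h3.inter h4))
  have hdecr : ∀ m, C (m + 1) ⊆ C m := by
    intro m v' hv'
    exact ⟨leg_down hy hv'.1, hv'.2⟩
  have hnonempty : ∀ m, (C m).Nonempty := by
    intro m
    induction m with
    | zero => exact ⟨v, hv, h0, hne, fun n _ => rfl⟩
    | succ m ih =>
      obtain ⟨v₁, hl, hv0, hvn, hvk⟩ := ih
      obtain ⟨⟨z, hz⟩, hy2⟩ := hy (k + m + 1)
      have hM : 3 ≤ MM (k + m) := by
        unfold MM
        have : 4 ≤ 2 ^ (k + m + 2) := by
          rw [pow_add]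
          have := Nat.one_le_two_pow (n := k + m)
          omega
        omega
      have hu : Leg ((Lk (k + m)).next (MM (k + m))) (fun n => y.2 (n - z)) :=
        hy2 z (hz _ le_rfl)
      have hv1 : Leg (Lk (k + m)) (fun n => v₁ (n - z)) := hl z (hz _ (Nat.le_succ _))
      obtain ⟨v₂, h1, h2, h3, h4⟩ := hext (Lk (k + m)) (MM (k + m)) hM (hcnk _)
        (fun n => y.2 (n - z)) (fun n => v₁ (n - z)) z hu hv1
        (by
          show v₁ (z - z) = y.2 (z - z)
          rw [sub_self]
          exact hv0)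
        (fun n hn => hvn (n - z) (sub_ne_zero.2 hn))
      refine ⟨fun n => v₂ (n + z), ?_, ?_, ?_, ?_⟩
      · intro w hw
        have h5 : Leg (Lk (k + m + 1)) (fun n => (fun n => v₂ (n + z)) (n - z)) := by
          have : (fun n : ℤ => (fun n => v₂ (n + z)) (n - z)) = v₂ := by
            funext n
            show v₂ (n - z + z) = v₂ n
            rw [sub_add_cancel]
          rw [this]
          exact h1
        refine leg_phase (v := fun n => v₂ (n + z)) (z := z) h5 ?_
        have h6 : y.1 (k + m + 1) = ((z : ℤ) : ZMod (ell (k + m + 1))) := hz _ le_rfl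
        have h7 : y.1 (k + m + 1) = ((w : ℤ) : ZMod (ell (k + m + 1))) := hw
        exact h6.symm.trans h7
      · show v₂ (0 + z) = y.2 0
        rw [zero_add, h2]
        show y.2 (z - z) = y.2 0
        rw [sub_self]
      · intro n hn
        show v₂ (n + z) ≠ y.2 n
        have h5 := h3 (n + z) (by
          intro h
          exact hn (by linarith))
        have h6 : n + z - z = n := by ring
        simp only [h6] at h5
        exact h5
      · intro n hn
        show v₂ (n + z) = v n
        have h6 : n + z - z = n := by ring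
        have h5 := h4 (n + z) (by
          rw [h6]
          refine hn.trans ?_
          have : ell k ≤ ell (k + m) := ell_mono (Nat.le_add_right _ _)
          exact_mod_cast this)
        rw [h5]
        simp only [h6]
        exact hvk n hn
  obtain ⟨v', hv'⟩ := IsCompact.nonempty_iInter_of_sequence_nonempty_isCompact_isClosed C hdecr
    hnonempty (hclosed 0).isCompact hclosed
  rw [mem_iInter] at hv'
  have hv0 := (hC 0 v').1 (hv' 0)
  refine ⟨v', ⟨hy, ?_, hv0.2.1.symm, fun n hn => (hv0.2.2.1 n hn).symm⟩, hv0.2.2.2⟩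
  intro j
  refine ⟨(hy j).1, ?_⟩
  exact leg_le (y := y) hy (Nat.le_add_left j k) ((hC j v').1 (hv' j)).1

end Run7.h491.JR
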