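import Pool.Agent.Run7.h979.JR.Iface

/-!
# Piece SUR of project JR (helper979), by helper491: the projections are surjective
-/

set_option autoImplicit false
set_option linter.all false

open Set Filter
open scoped Topology

namespace Run7.h491.JR

open Run7.h979.JR

theorem DS_symm {a : Ph} {u v : Sq} (h : (a, u, v) ∈ DS) : (a, v, u) ∈ DS :=
  ⟨h.2.1, h.1, h.2.2.1.symm, fun n hn => (h.2.2.2 n hn).symm⟩

theorem add_one_ne (a : ZMod 3) : a + 1 ≠ a := by
  revert a
  decide

theorem exists_partner (hlim : S_LIM) (y : Ph × Sq) (hy : y ∈ YS) :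
    ∃ v' : Sq, (y.1, y.2, v') ∈ DS := by
  obtain ⟨v', h1, -⟩ := hlim y hy 0 (fun n => if n = 0 then y.2 0 else y.2 n + 1)
    (by
      intro z _ t
      refine ⟨((fun n : ℤ => if n = 0 then y.2 0 else y.2 n + 1) (t * ((1 : ℕ) : ℤ) + (0 : ℕ) - z) :
        ZMod 3), ?_⟩
      intro i hi
      have hi' : i < 1 := hi
      have hi0 : i = 0 := by omega
      subst hi0
      rfl)
    (by simp)
    (by
      intro n hn
      show (if n = 0 then y.2 0 else y.2 n + 1) ≠ y.2 n
      rw [if_neg hn]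
      exact add_one_ne _)
  exact ⟨v', h1⟩

theorem t_SUR (hlim : S_LIM) : S_SUR := by
  constructor
  · intro y
    obtain ⟨v', h⟩ := exists_partner hlim y.1 y.2
    exact ⟨⟨(y.1.1, y.1.2, v'), h⟩, rfl⟩
  · intro y
    obtain ⟨v', h⟩ := exists_partner hlim y.1 y.2
    exact ⟨⟨(y.1.1, v', y.1.2), DS_symm h⟩, rfl⟩

end Run7.h491.JR
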