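import Pool.Agent.Run7.h491.JR.LIM
import Pool.Agent.Run7.h491.JR.SUR

/-!
# Piece OPN of project JR (helper979), by helper491: the projections are open
-/

set_option autoImplicit false
set_option linter.all false

open Set Filter
open scoped Topology

namespace Run7.h491.JR

open Run7.h979.JR

theorem ph_nhds (a : Ph) (A : Set Ph) (hA : IsOpen A) (ha : a ∈ A) :
    ∃ k : ℕ, ∀ a' : Ph, (∀ j ≤ k, a' j = a j) → a' ∈ A := by
  rw [isOpen_pi_iff] at hA
  obtain ⟨I, u, hu, hsub⟩ := hA a ha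
  refine ⟨I.sup id, fun a' h' => hsub (fun i hi => ?_)⟩
  have h1 : i ≤ I.sup id := Finset.le_sup (f := id) hi
  rw [h' i h1]
  exact (hu i hi).2

theorem sq_nhds (u : Sq) (B : Set Sq) (hB : IsOpen B) (hu : u ∈ B) :
    ∃ k : ℕ, ∀ u' : Sq, (∀ n : ℤ, |n| ≤ k → u' n = u n) → u' ∈ B := by
  rw [isOpen_pi_iff] at hB
  obtain ⟨I, w, hw, hsub⟩ := hB u hu
  refine ⟨I.sup Int.natAbs, fun u' h' => hsub (fun i hi => ?_)⟩
  have h1 : i.natAbs ≤ I.sup Int.natAbs := Finset.le_sup (f := Int.natAbs) hi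
  have h2 : |i| ≤ ((I.sup Int.natAbs : ℕ) : ℤ) := by
    rw [Int.abs_eq_natAbs]
    exact_mod_cast h1
  rw [h' i h2]
  exact (hw i hi).2

theorem tri_nhds (d : Ph × Sq × Sq) (W : Set (Ph × Sq × Sq)) (hW : IsOpen W) (hd : d ∈ W) :
    ∃ k : ℕ, ∀ d' : Ph × Sq × Sq, (∀ j ≤ k, d'.1 j = d.1 j) →
      (∀ n : ℤ, |n| ≤ k → d'.2.1 n = d.2.1 n) → (∀ n : ℤ, |n| ≤ k → d'.2.2 n = d.2.2 n) →
      d' ∈ W := by
  obtain ⟨A, B, hA, hB, ha, hb, hsub⟩ := isOpen_prod_iff.1 hW d.1 d.2 hd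
  obtain ⟨B1, B2, hB1, hB2, hb1, hb2, hsub2⟩ := isOpen_prod_iff.1 hB d.2.1 d.2.2 hb
  obtain ⟨k1, hk1⟩ := ph_nhds d.1 A hA ha
  obtain ⟨k2, hk2⟩ := sq_nhds d.2.1 B1 hB1 hb1
  obtain ⟨k3, hk3⟩ := sq_nhds d.2.2 B2 hB2 hb2
  refine ⟨k1 + k2 + k3, fun d' h1 h2 h3 => ?_⟩
  have e1 := hk1 d'.1 (fun j hj => h1 j (by omega))
  have e2 := hk2 d'.2.1 (fun n hn => h2 n (hn.trans (by exact_mod_cast (by omega : k2 ≤ k1 + k2 + k3))))
  have e3 := hk3 d'.2.2 (fun n hn => h3 n (hn.trans (by exact_mod_cast (by omega : k3 ≤ k1 + k2 + k3))))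
  exact hsub ⟨e1, hsub2 ⟨e2, e3⟩⟩

theorem cyl_open (a : Ph) (u : Sq) (k : ℕ) (K : ℤ) :
    IsOpen {y : YS | (∀ j ≤ k, y.1.1 j = a j) ∧ ∀ n : ℤ, |n| ≤ K → y.1.2 n = u n} := by
  have h1 : IsOpen {a' : Ph | ∀ j ≤ k, a' j = a j} := by
    have : {a' : Ph | ∀ j ≤ k, a' j = a j} = (Set.Iic k).pi (fun j => {a j}) := by
      ext a'
      simp [Set.mem_pi]
    rw [this]
    exact isOpen_set_pi (Set.finite_Iic k) (fun j _ => isOpen_discrete _)
  have h2 : IsOpen {u' : Sq | ∀ n : ℤ, |n| ≤ K → u' n = u n} := by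
    have : {u' : Sq | ∀ n : ℤ, |n| ≤ K → u' n = u n} = (Set.Icc (-K) K).pi (fun n => {u n}) := by
      ext u'
      simp [Set.mem_pi, abs_le]
    rw [this]
    exact isOpen_set_pi (Set.finite_Icc (-K) K) (fun j _ => isOpen_discrete _)
  have h3 : Continuous fun y : YS => y.1.1 := continuous_fst.comp continuous_subtype_val
  have h4 : Continuous fun y : YS => y.1.2 := continuous_snd.comp continuous_subtype_val
  exact (h1.preimage h3).inter (h2.preimage h4)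

theorem main_step (hlim : S_LIM) (a : Ph) (u v : Sq) (hd : (a, u, v) ∈ DS) (k : ℕ)
    (a' : Ph) (u' : Sq) (hy : (a', u') ∈ YS) (ha : ∀ j ≤ k, a' j = a j)
    (hu : ∀ n : ℤ, |n| ≤ 3 * (ell k : ℤ) → u' n = u n) :
    ∃ v' : Sq, (a', u', v') ∈ DS ∧ ∀ n : ℤ, |n| ≤ ell k → v' n = v n := by
  have hl : (0 : ℤ) < ell k := by exact_mod_cast ell_pos k
  obtain ⟨⟨z, hz⟩, hy2⟩ := hy k
  obtain ⟨l, hldef⟩ : ∃ l : ℤ, l = ell k := ⟨_, rfl⟩
  rw [← hldef] at hl
  obtain ⟨J, hJ⟩ : ∃ J : ℤ, J = z / l := ⟨_, rfl⟩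
  obtain ⟨s, hs⟩ : ∃ s : ℤ, s = z % l := ⟨_, rfl⟩
  have hs0 : 0 ≤ s := by rw [hs]; exact Int.emod_nonneg _ hl.ne'
  have hs1 : s < l := by rw [hs]; exact Int.emod_lt_of_pos _ hl
  have hzJ : z = l * J + s := by rw [hJ, hs]; exact (Int.mul_ediv_add_emod z l).symm
  let v₁ : Sq := fun n => if |(n + z) / l - J| ≤ 1 then v n else u' n + 1
  have hv₁ : ∀ n, v₁ n = if |(n + z) / l - J| ≤ 1 then v n else u' n + 1 := fun n => rfl
  have hblock : ∀ (t : ℤ) (i : ℕ), (i : ℤ) < l → (t * l + i - z + z) / l = t := by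
    intro t i hi
    have h1 : t * l + i - z + z = i + t * l := by ring
    rw [h1, Int.add_mul_ediv_right _ _ hl.ne', Int.ediv_eq_zero_of_lt (by positivity) hi, zero_add]
  have hleg : Leg (Lk k) (fun n => v₁ (n - z)) := by
    intro t
    have hv : Leg (Lk k) (fun n => v (n - z)) := by
      refine (hd.2.1 k).2 z ?_
      show a k = z
      rw [← ha k le_rfl]
      exact hz k le_rfl
    have hu' : Leg (Lk k) (fun n => u' (n - z)) := hy2 z (hz k le_rfl)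
    by_cases ht : |t - J| ≤ 1
    · obtain ⟨x, hx⟩ := hv t
      refine ⟨x, fun i hi => ?_⟩
      rw [← hx i hi]
      have h1 : (i : ℤ) < l := by
        rw [hldef]
        exact_mod_cast hi
      have h2 := hblock t i h1
      rw [hldef] at h2
      show v₁ (t * (ell k : ℕ) + i - z) = v (t * (ell k : ℕ) + i - z)
      rw [hv₁, hldef, h2, if_pos ht]
    · obtain ⟨x, hx⟩ := hu' t
      refine ⟨(Lk k).s x, fun i hi => ?_⟩
      rw [(Lk k).hs, ← hx i hi]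
      have h1 : (i : ℤ) < l := by
        rw [hldef]
        exact_mod_cast hi
      have h2 := hblock t i h1
      rw [hldef] at h2
      show v₁ (t * (ell k : ℕ) + i - z) = u' (t * (ell k : ℕ) + i - z) + 1
      rw [hv₁, hldef, h2, if_neg ht]
  have hnear : ∀ n : ℤ, |n| ≤ l → |(n + z) / l - J| ≤ 1 := by
    intro n hn
    obtain ⟨h1, h2⟩ := abs_le.1 hn
    have h3 : (n + z) / l ≤ J + 1 := by
      have : (n + z) / l ≤ (z + 1 * l) / l := Int.ediv_le_ediv hl (by linarith)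
      rwa [Int.add_mul_ediv_right _ _ hl.ne', ← hJ] at this
    have h4 : J - 1 ≤ (n + z) / l := by
      have : (z + (-1) * l) / l ≤ (n + z) / l := Int.ediv_le_ediv hl (by linarith)
      rwa [Int.add_mul_ediv_right _ _ hl.ne', ← hJ, ← sub_eq_add_neg] at this
    rw [abs_le]
    constructor <;> linarith
  have hfar : ∀ n : ℤ, |(n + z) / l - J| ≤ 1 → |n| ≤ 3 * l := by
    intro n hn
    obtain ⟨h1, h2⟩ := abs_le.1 hn
    have h3 := Int.emod_nonneg (n + z) hl.ne'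
    have h4 := Int.emod_lt_of_pos (n + z) hl
    have h5 : n + z = l * ((n + z) / l) + (n + z) % l := (Int.mul_ediv_add_emod _ _).symm
    have h6 : l * ((n + z) / l - J) ≤ l * 1 := mul_le_mul_of_nonneg_left h2 hl.le
    have h7 : l * (-1) ≤ l * ((n + z) / l - J) := mul_le_mul_of_nonneg_left h1 hl.le
    rw [mul_sub] at h6 h7
    rw [abs_le]
    constructor <;> linarith
  have h0 : v₁ 0 = u' 0 := by
    have h1 : |((0 : ℤ) + z) / l - J| ≤ 1 := hnear 0 (by rw [abs_zero]; exact hl.le)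
    rw [hv₁, if_pos h1, hu 0 (by rw [abs_zero, ← hldef]; linarith)]
    exact hd.2.2.1.symm
  have hne : ∀ n : ℤ, n ≠ 0 → v₁ n ≠ u' n := by
    intro n hn
    rw [hv₁]
    by_cases h1 : |(n + z) / l - J| ≤ 1
    · rw [if_pos h1, hu n (by rw [← hldef]; exact hfar n h1)]
      exact (hd.2.2.2 n hn).symm
    · rw [if_neg h1]
      exact add_one_ne _
  obtain ⟨v', hv', hk⟩ := hlim (a', u') hy k v₁ (by
    intro w hw
    refine leg_phase (v := v₁) (z := z) hleg ?_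
    have h1 : a' k = (z : ZMod (ell k)) := hz k le_rfl
    have h2 : a' k = (w : ZMod (ell k)) := hw
    exact h1.symm.trans h2) h0 hne
  refine ⟨v', hv', fun n hn => ?_⟩
  rw [hk n hn, hv₁, if_pos (hnear n (by rw [hldef]; exact hn))]

theorem p1_open (hlim : S_LIM) : IsOpenMap p1 := by
  intro W hW
  obtain ⟨W', hW', rfl⟩ := isOpen_induced_iff.1 hW
  rw [isOpen_iff_mem_nhds]
  rintro _ ⟨⟨⟨a, u, v⟩, hd⟩, hdW, rfl⟩
  obtain ⟨k, hk⟩ := tri_nhds (a, u, v) W' hW' hdW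
  refine Filter.mem_of_superset ((cyl_open a u k (3 * (ell k : ℤ))).mem_nhds
    ⟨fun j _ => rfl, fun n _ => rfl⟩) ?_
  rintro ⟨⟨a', u'⟩, hy⟩ ⟨h1, h2⟩
  obtain ⟨v', hv', hv'2⟩ := main_step hlim a u v hd k a' u' hy h1 h2
  have hke : (k : ℤ) ≤ ell k := by
    have := ell_ge k
    exact_mod_cast (Nat.le_of_succ_le this)
  have hl : (0 : ℤ) < ell k := by exact_mod_cast ell_pos k
  refine ⟨⟨(a', u', v'), hv'⟩, ?_, rfl⟩
  exact hk (a', u', v') h1 (fun n hn => h2 n (by linarith)) (fun n hn => hv'2 n (hn.trans hke))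

/-- exchange of the two sequences -/
def exch : DS ≃ₜ DS where
  toFun d := ⟨(d.1.1, d.1.2.2, d.1.2.1), DS_symm d.2⟩
  invFun d := ⟨(d.1.1, d.1.2.2, d.1.2.1), DS_symm d.2⟩
  left_inv _ := rfl
  right_inv _ := rfl
  continuous_toFun := by
    refine Continuous.subtype_mk ?_ _
    fun_prop
  continuous_invFun := by
    refine Continuous.subtype_mk ?_ _
    fun_prop

theorem t_OPN (hlim : S_LIM) : S_OPN := by
  refine ⟨p1_open hlim, ?_⟩
  have h : p2 = p1 ∘ exch := rfl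
  rw [h]
  exact (p1_open hlim).comp exch.isOpenMap

end Run7.h491.JR
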